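import Pool.Agent.H8.QL.Series

/-!
# Coefficients in a filtration, self-adjoint coefficients, evaluation at a real number
-/

namespace Pool.Agent.H8.QL

open PowerSeries Finset

section alg

variable {E : Type*} [Ring E] [Algebra ℝ E]

/-- The coefficient of degree `n` lies in `P n`. -/
def Deg (P : ℕ → Submodule ℝ E) (a : E⟦X⟧) : Prop := ∀ n, coeff n a ∈ P n

variable {P : ℕ → Submodule ℝ E}

theorem Deg.one (h1 : (1 : E) ∈ P 0) : Deg P (1 : E⟦X⟧) := by
  intro n
  rw [coeff_one]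
  split_ifs with h
  · rw [h]; exact h1
  · exact zero_mem _

theorem Deg.add {a b : E⟦X⟧} (ha : Deg P a) (hb : Deg P b) : Deg P (a + b) := fun n => by
  rw [map_add]; exact add_mem (ha n) (hb n)

theorem Deg.sub {a b : E⟦X⟧} (ha : Deg P a) (hb : Deg P b) : Deg P (a - b) := fun n => by
  rw [map_sub]; exact sub_mem (ha n) (hb n)

theorem coeff_rsmul (s : ℝ) (a : E⟦X⟧) (n : ℕ) : coeff n (s • a) = s • coeff n a := rfl

theorem Deg.smul {a : E⟦X⟧} (ha : Deg P a) (s : ℝ) : Deg P (s • a) := fun n => by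
  rw [coeff_rsmul]; exact Submodule.smul_mem _ _ (ha n)

theorem Deg.mul (hP : ∀ i j A B, A ∈ P i → B ∈ P j → A * B ∈ P (i + j)) {a b : E⟦X⟧}
    (ha : Deg P a) (hb : Deg P b) : Deg P (a * b) := fun n => by
  rw [coeff_mul]
  refine Submodule.sum_mem _ fun p hp => ?_
  rw [Finset.HasAntidiagonal.mem_antidiagonal] at hp
  rw [← hp]
  exact hP _ _ _ _ (ha _) (hb _)

/-- The inverse of a series with scalar constant coefficient. -/
theorem Deg.inv (h1 : (1 : E) ∈ P 0)
    (hP : ∀ i j A B, A ∈ P i → B ∈ P j → A * B ∈ P (i + j)) {a b : E⟦X⟧}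
    (ha : Deg P a) {k : ℝ} (hk : k ≠ 0) (h0 : coeff 0 a = k • 1) (hab : a * b = 1) :
    Deg P b := by
  intro n
  induction n using Nat.strong_induction_on with
  | _ n ih =>
    have h : coeff n (a * b) = k • coeff n b
        + ∑ p ∈ (antidiagonal n).erase (0, n), coeff p.1 a * coeff p.2 b := by
      rw [coeff_mul, ← add_sum_erase (antidiagonal n) _ (a := (0, n)) (by simp)]
      simp only [h0, smul_mul_assoc, one_mul]
    rw [hab] at h
    have h2 : ∑ p ∈ (antidiagonal n).erase (0, n), coeff p.1 a * coeff p.2 b ∈ P n := by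
      refine Submodule.sum_mem _ fun p hp => ?_
      rw [mem_erase, Finset.HasAntidiagonal.mem_antidiagonal] at hp
      have h3 : p.2 < n := by
        rcases Nat.eq_zero_or_pos p.1 with h | h
        · exact absurd (Prod.ext h (by simp only; omega)) hp.1
        · omega
      have := hP _ _ _ _ (ha p.1) (ih p.2 h3)
      rwa [hp.2] at this
    have h3 : coeff n b = k⁻¹ • (coeff n (1 : E⟦X⟧)
        - ∑ p ∈ (antidiagonal n).erase (0, n), coeff p.1 a * coeff p.2 b) := by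
      rw [h, add_sub_cancel_right, smul_smul, inv_mul_cancel₀ hk, one_smul]
    rw [h3]
    exact Submodule.smul_mem _ _ (sub_mem (Deg.one h1 n) h2)

end alg

section star

variable {E : Type*} [Ring E] [StarRing E] [Algebra ℝ E] [StarModule ℝ E]

/-- The coefficientwise adjoint. -/
noncomputable def adj (a : E⟦X⟧) : E⟦X⟧ := PowerSeries.mk fun n => star (coeff n a)

theorem coeff_adj (a : E⟦X⟧) (n : ℕ) : coeff n (adj a) = star (coeff n a) := coeff_mk _ _

theorem adj_mul (a b : E⟦X⟧) : adj (a * b) = adj b * adj a := by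
  ext n
  rw [coeff_adj, coeff_mul, coeff_mul, star_sum, ← Finset.Nat.sum_antidiagonal_swap]
  refine sum_congr rfl fun p _ => ?_
  rw [star_mul, coeff_adj, coeff_adj]
  rfl

theorem adj_one : adj (1 : E⟦X⟧) = 1 := by
  ext n
  rw [coeff_adj, coeff_one]
  split_ifs <;> simp

theorem adj_add (a b : E⟦X⟧) : adj (a + b) = adj a + adj b := by
  ext n
  rw [coeff_adj, map_add, map_add, star_add, coeff_adj, coeff_adj]

theorem adj_sub (a b : E⟦X⟧) : adj (a - b) = adj a - adj b := by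
  ext n
  rw [coeff_adj, map_sub, map_sub, star_sub, coeff_adj, coeff_adj]

theorem adj_smul (s : ℝ) (a : E⟦X⟧) : adj (s • a) = s • adj a := by
  ext n
  rw [coeff_adj, coeff_rsmul, coeff_rsmul, star_smul, coeff_adj]
  simp

/-- Self-adjoint series. -/
def SA (a : E⟦X⟧) : Prop := adj a = a

theorem SA.one : SA (1 : E⟦X⟧) := adj_one

theorem SA.add {a b : E⟦X⟧} (ha : SA a) (hb : SA b) : SA (a + b) := by
  rw [SA, adj_add, ha, hb]

theorem SA.sub {a b : E⟦X⟧} (ha : SA a) (hb : SA b) : SA (a - b) := by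
  rw [SA, adj_sub, ha, hb]

theorem SA.smul {a : E⟦X⟧} (ha : SA a) (s : ℝ) : SA (s • a) := by
  rw [SA, adj_smul, ha]

theorem SA.inv {a b : E⟦X⟧} (ha : SA a) (hab : a * b = 1) : SA b := by
  have h : adj b * a = 1 := by
    have := congrArg adj hab
    rwa [adj_mul, adj_one, ha] at this
  rw [SA]
  calc adj b = adj b * (a * b) := by rw [hab, mul_one]
    _ = b := by rw [← mul_assoc, h, one_mul]

theorem SA.mul {a b : E⟦X⟧} (ha : SA a) (hb : SA b) (hab : a * b = b * a) : SA (a * b) := by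
  rw [SA, adj_mul, ha, hb, hab]

theorem SA.coeff {a : E⟦X⟧} (ha : SA a) (n : ℕ) : IsSelfAdjoint (PowerSeries.coeff n a) := by
  rw [isSelfAdjoint_iff, ← coeff_adj, ha]

end star

section eval

variable {E : Type*} [NormedRing E] [NormedAlgebra ℝ E]

/-- Evaluation at the real number `z`. -/
noncomputable def ev (z : ℝ) (a : E⟦X⟧) : E := ∑' n, z ^ n • coeff n a

/-- The series converges absolutely at `z`. -/
def Sm (z : ℝ) (a : E⟦X⟧) : Prop := Summable fun n => ‖z ^ n • coeff n a‖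

theorem Sm.of_bound {z : ℝ} (h0 : 0 ≤ z) (h1 : z < 1) {a : E⟦X⟧} {B : ℝ}
    (hB : ∀ n, ‖coeff n a‖ ≤ B) : Sm z a := by
  refine Summable.of_nonneg_of_le (fun n => norm_nonneg _) (fun n => ?_)
    ((summable_geometric_of_lt_one h0 h1).mul_right B)
  rw [norm_smul, norm_pow, Real.norm_eq_abs, abs_of_nonneg h0]
  exact mul_le_mul_of_nonneg_left (hB n) (by positivity)

theorem Sm.summable [CompleteSpace E] {z : ℝ} {a : E⟦X⟧} (h : Sm z a) : Summable fun n => z ^ n • coeff n a :=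
  Summable.of_norm h

theorem Sm.one (z : ℝ) : Sm z (1 : E⟦X⟧) := by
  refine summable_of_ne_finset_zero (s := {0}) fun n hn => ?_
  rw [mem_singleton] at hn
  rw [coeff_one, if_neg hn]
  simp

theorem ev_one (z : ℝ) : ev z (1 : E⟦X⟧) = 1 := by
  rw [ev, tsum_eq_single 0]
  · simp
  · intro n hn
    rw [coeff_one, if_neg hn, smul_zero]

theorem Sm.add {z : ℝ} {a b : E⟦X⟧} (ha : Sm z a) (hb : Sm z b) : Sm z (a + b) := by
  refine Summable.of_nonneg_of_le (fun n => norm_nonneg _) (fun n => ?_)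
    (Summable.add ha hb)
  rw [map_add, smul_add]
  exact norm_add_le _ _

theorem Sm.smul {z : ℝ} {a : E⟦X⟧} (ha : Sm z a) (s : ℝ) : Sm z (s • a) := by
  refine (Summable.mul_left ‖s‖ ha).congr fun n => ?_
  rw [coeff_rsmul, smul_comm, norm_smul s]

theorem Sm.sub {z : ℝ} {a b : E⟦X⟧} (ha : Sm z a) (hb : Sm z b) : Sm z (a - b) := by
  refine Summable.of_nonneg_of_le (fun n => norm_nonneg _) (fun n => ?_)
    (Summable.add ha hb)
  rw [map_sub, smul_sub]
  exact norm_sub_le _ _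

theorem ev_add [CompleteSpace E] {z : ℝ} {a b : E⟦X⟧} (ha : Sm z a) (hb : Sm z b) :
    ev z (a + b) = ev z a + ev z b := by
  rw [ev, ev, ev, ← ha.summable.tsum_add hb.summable]
  refine tsum_congr fun n => ?_
  rw [map_add, smul_add]

theorem ev_sub [CompleteSpace E] {z : ℝ} {a b : E⟦X⟧} (ha : Sm z a) (hb : Sm z b) :
    ev z (a - b) = ev z a - ev z b := by
  rw [ev, ev, ev, ← ha.summable.tsum_sub hb.summable]
  refine tsum_congr fun n => ?_
  rw [map_sub, smul_sub]

theorem ev_smul [CompleteSpace E] {z : ℝ} {a : E⟦X⟧} (s : ℝ) (ha : Sm z a) : ev z (s • a) = s • ev z a := by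
  rw [ev, ev, ← ha.summable.tsum_const_smul s]
  refine tsum_congr fun n => ?_
  rw [coeff_rsmul, smul_comm]

theorem coeff_mul_smul (z : ℝ) (a b : E⟦X⟧) (n : ℕ) :
    z ^ n • coeff n (a * b)
      = ∑ p ∈ antidiagonal n, (z ^ p.1 • coeff p.1 a) * (z ^ p.2 • coeff p.2 b) := by
  rw [coeff_mul, smul_sum]
  refine sum_congr rfl fun p hp => ?_
  rw [Finset.HasAntidiagonal.mem_antidiagonal] at hp
  rw [smul_mul_smul_comm, ← pow_add, hp]

theorem Sm.mul [CompleteSpace E] {z : ℝ} {a b : E⟦X⟧} (ha : Sm z a) (hb : Sm z b) : Sm z (a * b) := by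
  have := summable_norm_sum_mul_antidiagonal_of_summable_norm ha hb
  refine this.congr fun n => ?_
  rw [coeff_mul_smul]

theorem ev_mul [CompleteSpace E] {z : ℝ} {a b : E⟦X⟧} (ha : Sm z a) (hb : Sm z b) :
    ev z (a * b) = ev z a * ev z b := by
  rw [ev, ev, ev, tsum_mul_tsum_eq_tsum_sum_antidiagonal_of_summable_norm ha hb]
  exact tsum_congr fun n => coeff_mul_smul z a b n

/-- The truncation. -/
noncomputable def tr (z : ℝ) (J : ℕ) (a : E⟦X⟧) : E := ∑ n ∈ range (J + 1), z ^ n • coeff n a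

theorem norm_tr_sub_ev_le [CompleteSpace E] {z : ℝ} (h0 : 0 ≤ z) (h1 : z < 1) {a : E⟦X⟧}
    (hB : ∀ n, ‖coeff n a‖ ≤ 1) (J : ℕ) : ‖tr z J a - ev z a‖ ≤ z ^ (J + 1) / (1 - z) := by
  have hs := (Sm.of_bound h0 h1 hB).summable
  have h2 := hs.sum_add_tsum_nat_add (J + 1)
  have h3 : tr z J a - ev z a = - ∑' n, z ^ (n + (J + 1)) • coeff (n + (J + 1)) a := by
    rw [tr, ev, ← h2]; abel
  rw [h3, norm_neg]
  have h4 : HasSum (fun n : ℕ => z ^ (J + 1) * z ^ n) (z ^ (J + 1) * (1 - z)⁻¹) :=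
    (hasSum_geometric_of_lt_one h0 h1).mul_left _
  rw [div_eq_mul_inv]
  refine tsum_of_norm_bounded h4 fun n => ?_
  rw [norm_smul, norm_pow, Real.norm_eq_abs, abs_of_nonneg h0, pow_add, mul_comm (z ^ n)]
  calc z ^ (J + 1) * z ^ n * ‖coeff (n + (J + 1)) a‖ ≤ z ^ (J + 1) * z ^ n * 1 :=
        mul_le_mul_of_nonneg_left (hB _) (by positivity)
    _ = _ := mul_one _

theorem tr_mem {P : ℕ → Submodule ℝ E} (hm : Monotone P) {a : E⟦X⟧} (ha : Deg P a) (z : ℝ)
    (J : ℕ) : tr z J a ∈ P J :=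
  Submodule.sum_mem _ fun n hn => Submodule.smul_mem _ _
    (hm (Nat.lt_succ_iff.1 (mem_range.1 hn)) (ha n))

theorem tr_sa [StarRing E] [StarModule ℝ E] {a : E⟦X⟧} (ha : SA a) (z : ℝ) (J : ℕ) :
    IsSelfAdjoint (tr z J a) := by
  rw [tr]
  refine Finset.sum_induction _ IsSelfAdjoint (fun _ _ h1 h2 => h1.add h2) (.zero _)
    fun n _ => ?_
  rw [isSelfAdjoint_iff, star_smul, (ha.coeff n).star_eq]
  simp

end eval

end Pool.Agent.H8.QL
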