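import Mathlib

/-!
# Power series of operators: positive real series, their inverses and their Cayley transforms

`H` is a real Hilbert space. A power series `a` over the bounded operators of `H` is called
`PR` when the block Toeplitz forms of `a` are non-negative. The class is closed under positive
combinations and under inversion; the Cayley transform `(a - t) (a + t)⁻¹` of such a series
is a contraction, so each of its coefficients has norm at most one.
-/

namespace Pool.Agent.H8.QL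

open PowerSeries Finset

variable {H : Type*} [NormedAddCommGroup H] [InnerProductSpace ℝ H]

/-- Positive real series: the truncated forms are non-negative. -/
def PR (a : (H →L[ℝ] H)⟦X⟧) : Prop :=
  ∀ (v : (H →L[ℝ] H)⟦X⟧) (h : H) (N : ℕ),
    0 ≤ ∑ n ∈ range (N + 1), inner ℝ (coeff n (a * v) h) (coeff n v h)

/-- Contractive series. -/
def CT (m : (H →L[ℝ] H)⟦X⟧) : Prop :=
  ∀ (v : (H →L[ℝ] H)⟦X⟧) (h : H) (N : ℕ),
    ∑ n ∈ range (N + 1), ‖coeff n (m * v) h‖ ^ 2 ≤ ∑ n ∈ range (N + 1), ‖coeff n v h‖ ^ 2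

theorem PR.one : PR (1 : (H →L[ℝ] H)⟦X⟧) := by
  intro v h N
  refine sum_nonneg fun n _ => ?_
  rw [one_mul, real_inner_self_eq_norm_sq]
  positivity

theorem PR.add {a b : (H →L[ℝ] H)⟦X⟧} (ha : PR a) (hb : PR b) : PR (a + b) := by
  intro v h N
  have e : ∀ n, inner ℝ (coeff n ((a + b) * v) h) (coeff n v h)
      = inner ℝ (coeff n (a * v) h) (coeff n v h)
        + inner ℝ (coeff n (b * v) h) (coeff n v h) := by
    intro n
    rw [add_mul, map_add, add_apply, inner_add_left]
  rw [sum_congr rfl fun n _ => e n, sum_add_distrib]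
  exact add_nonneg (ha v h N) (hb v h N)

theorem PR.smul {a : (H →L[ℝ] H)⟦X⟧} (ha : PR a) {s : ℝ} (hs : 0 ≤ s) : PR (s • a) := by
  intro v h N
  have e : ∀ n, inner ℝ (coeff n ((s • a) * v) h) (coeff n v h)
      = s * inner ℝ (coeff n (a * v) h) (coeff n v h) := by
    intro n
    have : coeff n ((s • a) * v) = s • coeff n (a * v) := by
      rw [smul_mul_assoc]; rfl
    rw [this, smul_apply, real_inner_smul_left]
  rw [sum_congr rfl fun n _ => e n, ← mul_sum]
  exact mul_nonneg hs (ha v h N)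

theorem PR.inv {a b : (H →L[ℝ] H)⟦X⟧} (ha : PR a) (hab : a * b = 1) : PR b := by
  intro v h N
  have e : ∀ n, inner ℝ (coeff n (b * v) h) (coeff n v h)
      = inner ℝ (coeff n (a * (b * v)) h) (coeff n (b * v) h) := by
    intro n
    rw [← mul_assoc, hab, one_mul, real_inner_comm]
  rw [sum_congr rfl fun n _ => e n]
  exact ha (b * v) h N

/-- The Cayley transform of a positive real series is contractive. -/
theorem PR.cayley {a b : (H →L[ℝ] H)⟦X⟧} (ha : PR a) {t : ℝ} (ht : 0 ≤ t)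
    (hab : (a + t • 1) * b = 1) : CT ((a - t • 1) * b) := by
  intro v h N
  have key := ha (b * v) h N
  set u := b * v with hu
  have h1 : ∀ n, coeff n v h = coeff n (a * u) h + t • coeff n u h := by
    intro n
    have : v = (a + t • 1) * u := by rw [hu, ← mul_assoc, hab, one_mul]
    rw [this, add_mul, smul_mul_assoc, one_mul]
    simp
  have h2 : ∀ n, (coeff n ((a - t • 1) * b * v) : H →L[ℝ] H) h
      = coeff n (a * u) h - t • coeff n u h := by
    intro n
    rw [mul_assoc, ← hu, sub_mul, smul_mul_assoc, one_mul]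
    simp
  have e : ∀ n, ‖coeff n v h‖ ^ 2 = ‖(coeff n ((a - t • 1) * b * v) : H →L[ℝ] H) h‖ ^ 2
      + 4 * t * inner ℝ (coeff n (a * u) h) (coeff n u h) := by
    intro n
    rw [h1, h2, norm_add_sq_real, norm_sub_sq_real, real_inner_smul_right]
    ring
  rw [sum_congr rfl fun n _ => e n, sum_add_distrib, ← mul_sum]
  have : 0 ≤ 4 * t * ∑ n ∈ range (N + 1), inner ℝ (coeff n (a * u) h) (coeff n u h) := by
    positivity
  linarith

/-- The coefficients of a contractive series are contractions. -/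
theorem CT.norm_le {m : (H →L[ℝ] H)⟦X⟧} (hm : CT m) (n : ℕ) : ‖coeff n m‖ ≤ 1 := by
  refine ContinuousLinearMap.opNorm_le_bound _ zero_le_one fun h => ?_
  have key := hm 1 h n
  rw [mul_one] at key
  have h1 : ‖coeff n m h‖ ^ 2 ≤ ∑ k ∈ range (n + 1), ‖coeff k m h‖ ^ 2 :=
    single_le_sum (f := fun k => ‖coeff k m h‖ ^ 2) (fun k _ => by positivity)
      (mem_range.2 (Nat.lt_succ_self n))
  have h2 : ∑ k ∈ range (n + 1), ‖coeff k (1 : (H →L[ℝ] H)⟦X⟧) h‖ ^ 2 = ‖h‖ ^ 2 := by
    rw [sum_eq_single 0]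
    · simp
    · intro k _ hk
      rw [coeff_one, if_neg hk]
      simp
    · simp
  rw [one_mul]
  exact le_of_sq_le_sq (by linarith) (norm_nonneg _)
where
  le_of_sq_le_sq {x y : ℝ} (h : x ^ 2 ≤ y ^ 2) (hy : 0 ≤ y) : x ≤ y := by
    nlinarith [abs_le_of_sq_le_sq h hy, le_abs_self x]

/-- A positive real series with a scalar constant coefficient has bounded coefficients. -/
theorem PR.norm_le {a : (H →L[ℝ] H)⟦X⟧} (ha : PR a) {k : ℝ} (hk : 0 < k)
    (h0 : coeff 0 a = k • 1) (n : ℕ) : ‖coeff n a‖ ≤ 2 * k := by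
  rcases Nat.eq_zero_or_pos n with rfl | hn
  · rw [h0, norm_smul, Real.norm_eq_abs, abs_of_pos hk]
    have : ‖(1 : H →L[ℝ] H)‖ ≤ 1 := ContinuousLinearMap.norm_id_le
    nlinarith
  refine ContinuousLinearMap.opNorm_le_bound _ (by positivity) fun h => ?_
  set A := coeff n a with hA
  set al : ℝ := 1 / (2 * k) with hal
  set v : (H →L[ℝ] H)⟦X⟧ := 1 - al • (C A * X ^ n) with hv
  have key := ha v h n
  have hv0 : coeff 0 v = 1 := by
    rw [hv]
    have : coeff 0 (al • (C A * X ^ n) : (H →L[ℝ] H)⟦X⟧) = 0 := by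
      change al • coeff 0 (C A * X ^ n : (H →L[ℝ] H)⟦X⟧) = 0
      rw [coeff_C_mul, coeff_X_pow, if_neg (by omega), mul_zero, smul_zero]
    rw [map_sub, this, sub_zero]; simp
  have hvn : coeff n v = - (al • A) := by
    rw [hv]
    have : coeff n (al • (C A * X ^ n) : (H →L[ℝ] H)⟦X⟧) = al • A := by
      change al • coeff n (C A * X ^ n : (H →L[ℝ] H)⟦X⟧) = _
      rw [coeff_C_mul, coeff_X_pow, if_pos rfl, mul_one]
    rw [map_sub, this, coeff_one, if_neg (by omega), zero_sub]
  have hvj : ∀ j, j ≠ 0 → j ≠ n → coeff j v = 0 := by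
    intro j hj0 hjn
    rw [hv]
    have : coeff j (al • (C A * X ^ n) : (H →L[ℝ] H)⟦X⟧) = 0 := by
      change al • coeff j (C A * X ^ n : (H →L[ℝ] H)⟦X⟧) = 0
      rw [coeff_C_mul, coeff_X_pow, if_neg hjn, mul_zero, smul_zero]
    rw [map_sub, this, coeff_one, if_neg hj0, sub_zero]
  have hav0 : coeff 0 (a * v) = k • 1 := by
    rw [coeff_mul, Nat.antidiagonal_zero, sum_singleton, h0, hv0, mul_one]
  have havn : coeff n (a * v) = A - (al * k) • A := by
    rw [coeff_mul]
    rw [← sum_subset (s₁ := {(0, n), (n, 0)})]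
    · rw [sum_pair (by
        intro h; have := congrArg Prod.fst h; simp at this; omega)]
      rw [h0, hvn, hv0, mul_one, ← hA]
      simp only [smul_mul_assoc, one_mul, smul_neg, smul_smul, mul_comm k al]
      abel
    · intro p hp
      simp only [mem_insert, mem_singleton] at hp
      rcases hp with rfl | rfl <;> simp
    · intro p hp hp2
      rw [Finset.HasAntidiagonal.mem_antidiagonal] at hp
      simp only [mem_insert, mem_singleton, not_or] at hp2
      have h1 : p.2 ≠ n := fun h => hp2.1 (Prod.ext (by simp; omega) h)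
      have h2 : p.2 ≠ 0 := fun h => hp2.2 (Prod.ext (by simp; omega) h)
      rw [hvj _ h2 h1, mul_zero]
  have e : ∑ j ∈ range (n + 1), inner ℝ (coeff j (a * v) h) (coeff j v h)
      = k * ‖h‖ ^ 2 - (1 - al * k) * al * ‖A h‖ ^ 2 := by
    rw [← sum_subset (s₁ := {0, n})]
    · rw [sum_pair (by omega), hav0, havn, hv0, hvn]
      simp only [smul_apply, one_apply_eq_self,
        sub_apply, neg_apply, inner_neg_right,
        inner_sub_left, real_inner_smul_left, real_inner_smul_right, real_inner_self_eq_norm_sq]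
      ring
    · intro p hp
      simp only [mem_insert, mem_singleton] at hp
      rcases hp with rfl | rfl <;> simp
    · intro p hp hp2
      simp only [mem_insert, mem_singleton, not_or] at hp2
      rw [hvj _ hp2.1 hp2.2]
      simp
  rw [e] at key
  have hak : al * k = 1 / 2 := by rw [hal]; field_simp
  rw [hak] at key
  have h3 : ‖A h‖ ^ 2 ≤ (2 * k * ‖h‖) ^ 2 := by
    have h4 : (1 - (1 : ℝ) / 2) * al * ‖A h‖ ^ 2 ≤ k * ‖h‖ ^ 2 := by linarith
    have h5 : 4 * k * ((1 - (1 : ℝ) / 2) * al * ‖A h‖ ^ 2) = ‖A h‖ ^ 2 := by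
      have : 4 * k * ((1 - (1 : ℝ) / 2) * al * ‖A h‖ ^ 2) = 2 * (al * k) * ‖A h‖ ^ 2 := by ring
      rw [this, hak]; ring
    rw [← h5]
    calc 4 * k * ((1 - (1 : ℝ) / 2) * al * ‖A h‖ ^ 2) ≤ 4 * k * (k * ‖h‖ ^ 2) :=
          mul_le_mul_of_nonneg_left h4 (by positivity)
      _ = (2 * k * ‖h‖) ^ 2 := by ring
  exact abs_le_of_sq_le_sq' h3 (by positivity) |>.2

/-- The leaf: `(1 + z x) (1 - z x)⁻¹` is positive real for a contraction `x`. -/
theorem PR.leaf {x : H →L[ℝ] H} (hx : ∀ h, ‖x h‖ ≤ ‖h‖) {b : (H →L[ℝ] H)⟦X⟧}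
    (hb : (1 - C x * X) * b = 1) : PR ((1 + C x * X) * b) := by
  intro v h N
  set w := b * v with hw
  have hv : v = (1 - C x * X) * w := by rw [hw, ← mul_assoc, hb, one_mul]
  have ha : (1 + C x * X) * b * v = (1 + C x * X) * w := by rw [hw, mul_assoc]
  rw [ha]
  have e : ∀ n, inner ℝ ((coeff n ((1 + C x * X) * w) : H →L[ℝ] H) h) (coeff n v h)
      = ‖coeff n w h‖ ^ 2 - ‖(coeff n (C x * X * w) : H →L[ℝ] H) h‖ ^ 2 := by
    intro n
    rw [hv, add_mul, sub_mul, one_mul, map_add, map_sub, add_apply,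
      sub_apply, inner_add_left, inner_sub_right, inner_sub_right,
      real_inner_self_eq_norm_sq, real_inner_self_eq_norm_sq,
      real_inner_comm (coeff n w h) ((coeff n (C x * X * w) : H →L[ℝ] H) h)]
    ring
  rw [sum_congr rfl fun n _ => e n, sum_sub_distrib]
  have h1 : ∀ n, (coeff (n + 1) (C x * X * w) : H →L[ℝ] H) = x * coeff n w := by
    intro n
    rw [mul_assoc, coeff_C_mul, coeff_succ_X_mul]
  have h0 : (coeff 0 (C x * X * w) : H →L[ℝ] H) = 0 := by
    rw [mul_assoc, coeff_C_mul, coeff_zero_X_mul, mul_zero]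
  have h2 : ∑ n ∈ range (N + 1), ‖(coeff n (C x * X * w) : H →L[ℝ] H) h‖ ^ 2
      ≤ ∑ n ∈ range N, ‖coeff n w h‖ ^ 2 := by
    rw [sum_range_succ', h0]
    simp only [zero_apply, norm_zero, ne_eq, OfNat.ofNat_ne_zero,
      not_false_eq_true, zero_pow, add_zero]
    refine sum_le_sum fun n _ => ?_
    rw [h1]
    have := hx (coeff n w h)
    have h3 : (x * coeff n w) h = x (coeff n w h) := rfl
    rw [h3]
    gcongr
  have h3 : ∑ n ∈ range N, ‖coeff n w h‖ ^ 2 ≤ ∑ n ∈ range (N + 1), ‖coeff n w h‖ ^ 2 := by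
    rw [sum_range_succ]
    have : 0 ≤ ‖coeff N w h‖ ^ 2 := by positivity
    linarith
  linarith

end Pool.Agent.H8.QL
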